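import Pool.Agent.H43.HarmOct

set_option autoImplicit false
open Pool.Agent.H43.Harm

namespace Pool.Agent.Results.MP_469b0e_pr.TransientCex

/-- A transient graph of bounded degree (the octant of the five-dimensional lattice) on which
every Lipschitz harmonic function is constant. -/
theorem result :
    ∃ (G : SimpleGraph (Fin 5 → ℕ)) (_ : G.LocallyFinite), G.Connected ∧
      (∀ x, G.degree x ≤ 10) ∧ Transient G ∧
      ∀ f : (Fin 5 → ℕ) → ℝ, IsHarmonic G f → IsLipschitz G f → ∀ x y, f x = f y :=
  ⟨octG, octLF, oct_conn, deg_le, oct_transient, harm_const⟩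

end Pool.Agent.Results.MP_469b0e_pr.TransientCex
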