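import Pool.Agent.H43.HarmEnds

set_option autoImplicit false
open Pool.Agent.H43.Harm

namespace Pool.Agent.Results.MP_469b0e_pr.TwoEndsYes

/-- Every connected locally finite graph with at least two ends carries a non-constant
Lipschitz harmonic function. -/
theorem result (V : Type) (G : SimpleGraph V) [G.LocallyFinite] (hc : G.Connected)
    (he : TwoEnds G) :
    ∃ f : V → ℝ, IsHarmonic G f ∧ IsLipschitz G f ∧ ∃ x y, f x ≠ f y :=
  exists_harmonic G hc he

end Pool.Agent.Results.MP_469b0e_pr.TwoEndsYes
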